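import Pool.Agent.MWLE.StmtsB

/-!
# MWLE, row CLC: the closure properties
-/

namespace Pool.Agent.MWLE.H44

open Pool.Agent.Helper14_MV Pool.Agent.Helper2_MV
open Pool.Agent.MWLE
open Pool.Agent.MWGN (nn Gz E0 P0 A0 Tau gh)

theorem kk_tr {β : FIC} {σ : List ℕ} {m e : ℕ} {W W' : List ℕ}
    (h : RR β (W.flatMap (psi e)) (W'.flatMap (psi e))) : KK β σ m e W ↔ KK β σ m e W' :=
  ⟨fun h1 => β.trans (β.symm h) h1, fun h1 => β.trans h h1⟩

theorem wd_false (σ : List ℕ) (m : ℕ) (g : Bool) (f : ℕ → List ℕ) (p q : List ℕ) :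
    p ++ ((wd σ m false g).flatMap f ++ q) = (p ++ (N0 m).flatMap f) ++
      (f 0 ++ (((Nx m g ++ [0]) ++ tl σ).flatMap f ++ q)) := by
  have e : wd σ m false g = N0 m ++ ([0] ++ ((Nx m g ++ [0]) ++ tl σ)) := by
    show (N0 m ++ ([0] ++ (Nx m g ++ [0]))) ++ tl σ = _
    simp only [List.append_assoc]
  have e2 : ([0] : List ℕ).flatMap f = f 0 := by simp
  rw [e, List.flatMap_append, List.flatMap_append, e2]
  simp only [List.append_assoc]

theorem wd_true (σ : List ℕ) (m : ℕ) (g : Bool) (f : ℕ → List ℕ) (p q : List ℕ) :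
    p ++ ((wd σ m true g).flatMap f ++ q) = (p ++ (N0 m).flatMap f) ++
      (f 0 ++ (f 0 ++ (((Nx m g ++ [0]) ++ tl σ).flatMap f ++ q))) := by
  have e : wd σ m true g = N0 m ++ ([0, 0] ++ ((Nx m g ++ [0]) ++ tl σ)) := by
    show (N0 m ++ ([0, 0] ++ (Nx m g ++ [0]))) ++ tl σ = _
    simp only [List.append_assoc]
  have e2 : ([0, 0] : List ℕ).flatMap f = f 0 ++ f 0 := by simp
  rw [e, List.flatMap_append, List.flatMap_append, e2]
  simp only [List.append_assoc]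

/-- the doubling of the image of `x` -/
theorem dbx (hVvd : VvdStmt) {β : FIC} (hz : Gz β) {σ : List ℕ} {m : ℕ} {g : Bool}
    {f : ℕ → List ℕ} {p q : List ℕ} {e : ℕ}
    (h : ∀ c ∈ f 0, c % 5 = 4 ∨ c = e ∨ c ∈ p ++ (N0 m).flatMap f) :
    KK β σ m e (p ++ ((wd σ m false g).flatMap f ++ q)) ↔
      KK β σ m e (p ++ ((wd σ m true g).flatMap f ++ q)) := by
  apply kk_tr
  rw [wd_false, wd_true]
  exact hVvd β hz e _ _ _ h

/-- **CLC** -/
theorem clc (hKfb : KfbStmt) (hGdb : GdbStmt) (hGdc : GdcStmt) (hGda : GdaStmt) (hClb : ClbStmt)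
    (hVvd : VvdStmt) (hFsf : FsfStmt) : ClcStmt := by
  intro β hz hE hF σ τ m hτ hσ hB hL f p q
  have kfb := hKfb β hz hE (hFsf β hz hF) σ τ m hτ hσ hB hL
  have h2 : ∀ g : Bool, KK β σ m 0 (p ++ ((wd σ m false g).flatMap f ++ q)) ↔
      KK β σ m 0 (p ++ ((wd σ m true g).flatMap f ++ q)) := by
    intro g
    constructor
    · intro h
      exact (dbx hVvd hz (hGdc σ τ m hσ false g f p q ((kfb _).2 h))).1 h
    · intro h
      exact (dbx hVvd hz (hGdc σ τ m hσ true g f p q ((kfb _).2 h))).2 h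
  refine ⟨?_, h2, ?_⟩
  · constructor
    · intro h
      exact (kk_tr (hClb β hz hF σ τ m hσ f p q
        (hGdb σ τ m hσ false f p q ((kfb _).1 h)))).1 h
    · intro h
      exact (kk_tr (hClb β hz hF σ τ m hσ f p q
        (hGdb σ τ m hσ true f p q ((kfb _).1 h)))).2 h
  · constructor
    · rintro ⟨ha, hb⟩
      refine ⟨?_, (h2 true).1 hb⟩
      exact (dbx hVvd hz (hGda σ τ m hσ false f p q ((kfb _).1 ha) ((kfb _).2 hb))).1 ha
    · rintro ⟨ha, hb⟩
      refine ⟨?_, (h2 true).2 hb⟩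
      exact (dbx hVvd hz (hGda σ τ m hσ true f p q ((kfb _).1 ha) ((kfb _).2 hb))).2 ha

end Pool.Agent.MWLE.H44
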